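import Mathlib
import Pool.Agent.Helper292.SetMap

set_option autoImplicit false

open Cardinal Ordinal

namespace Pool.Agent.Results.MP_5fddfa_lc.GCHAnswer

universe u

/-- `f` is a set mapping on `S`: no point belongs to its own image. -/
def IsSetMapping {S : Type u} (f : S → Set S) : Prop := ∀ x : S, x ∉ f x

/-- `f` has order `κ`: every image has size less than `κ`. -/
def HasOrder {S : Type u} (f : S → Set S) (κ : Cardinal.{u}) : Prop := ∀ x : S, #(f x) < κ

/-- `F` is free for `f`: it does not meet the union of the images of its points. -/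
def IsFree {S : Type u} (f : S → Set S) (F : Set S) : Prop := F ∩ (⋃ x ∈ F, f x) = ∅

/-- The relation `(κ, η, θ) → ι`: every set mapping `f` of order `κ` on a set `S` of size `κ` such
that the images of any `η` points have fewer than `θ` common elements has a free set of size
`ι`. -/
def Arrow (κ η θ ι : Cardinal.{u}) : Prop :=
  ∀ (S : Type u) (f : S → Set S), #S = κ → IsSetMapping f → HasOrder f κ →
    (∀ X : Set S, #X = η → #(⋂ x ∈ X, f x : Set S) < θ) → ∃ F : Set S, #F = ι ∧ IsFree f F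

/-- The generalized continuum hypothesis. -/
def GCH : Prop := ∀ c : Cardinal.{u}, ℵ₀ ≤ c → (2 : Cardinal.{u}) ^ c = Order.succ c

/-- Under GCH the relation `(ℵ_{ω+1}, ℵ_ω, ℵ_ω) → ι` holds for every cardinal `ι` up to
`ℵ_ω`. -/
theorem result (hGCH : GCH.{u}) (ι : Cardinal.{u}) (hι : ι ≤ ℵ_ ω) :
    Arrow (ℵ_ (ω + 1)) (ℵ_ ω) (ℵ_ ω) ι := by
  intro S f hS hself hord hH
  obtain ⟨F, hF, hfree⟩ := Pool.Agent.Helper292.SetMap.aleph_omega_free (fun n => by
    rw [hGCH _ (aleph0_le_aleph _), ← aleph_succ]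
    refine aleph_lt_aleph.2 ?_
    have h1 : Order.succ (n : Ordinal.{u}) = ((n + 1 : ℕ) : Ordinal.{u}) := by
      rw [← Ordinal.add_one_eq_succ]
      push_cast
      rfl
    rw [h1]
    exact nat_lt_omega0 _) hS f hself hord hH
  obtain ⟨F', hF', hF'c⟩ := (le_mk_iff_exists_subset).1 (hι.trans hF.ge)
  refine ⟨F', hF'c, ?_⟩
  unfold IsFree
  rw [Set.eq_empty_iff_forall_notMem]
  rintro x ⟨hx, hx'⟩
  simp only [Set.mem_iUnion] at hx'
  obtain ⟨y, hy, hxy⟩ := hx'
  exact hfree x (hF' hx) y (hF' hy) hxy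

end Pool.Agent.Results.MP_5fddfa_lc.GCHAnswer
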